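import Pool.Agent.TH875.PQ.D

set_option autoImplicit false

/-!
# Rational curves on isotrivial elliptic surfaces

`k` is an algebraically closed field of characteristic zero. Let `X` be a smooth projective model of
the surface `z ^ n = ∏ (t - a i) ^ m₁ i * ∏ (x - b j) ^ m₂ j`, fibred over the projective line by
`t`. Its general fibres are copies of the curve `w ^ n = ∏ (x - b j) ^ m₂ j`, twisted by the
function `∏ (t - a i) ^ m₁ i`. For example, for `n = 2`, four points `b j` and exponents `1` these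
are the quadratic twists of an arbitrary elliptic curve. A curve on `X` with function field `L`
whose image is not contained in the fibres `t = ∞`, `x = ∞` is given by `t`, `x`, `z` in `L`.
-/

namespace Pool.Agent.Results.MP_4f5f6e_ag.IsotrivialSurfaces

open FF

section

variable (k : Type) {L : Type} [Field k] [Field L] [Algebra k L]

/-- The degree of the morphism to `ℙ¹` given by `f`: the number of the poles of `f`, counted with
multiplicities. For `f = t` and a curve `C` on `X` with function field `L` this is the intersection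
number of `C` with a fibre. -/
noncomputable def degree (f : L) : ℤ := ∑ᶠ P : Place k L, max (-P.ord f) 0

variable (L) in
open Classical in
/-- `2 g - 2`, where `g` is the genus of the curve with function field `L`: minus the degree of the
divisor of a nonzero rational vector field `D` (a derivation of `L` over `k`), whose order at the
place `P` is the order of `D s`, where `s` is an element of order `1` at `P`. It does not depend on
the choice of `D` and of the elements `s`. -/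
noncomputable def canonicalDegree : ℤ :=
  if h : ∃ D : Derivation k L L, D ≠ 0 then - ∑ᶠ P : Place k L, P.ord (h.choose P.surj.choose)
  else 0

end

/-- The integers `e₁ i`, `e₂ j` are at least `2` and at most the orders `n / gcd (n, m₁ i)`,
`n / gcd (n, m₂ j)` of the ramification of the surface
`z ^ n = ∏ (t - a i) ^ m₁ i * ∏ (x - b j) ^ m₂ j`, and `α / e₁ i + β / e₂ j ≥ 1` for all
`α, β ≥ 1` with `n ∣ m₁ i α + m₂ j β`. If they are the orders of the ramification, then the last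
condition means that the singularities of the surface over `(a i, b j)` are canonical. -/
def Canonical {q₁ q₂ : ℕ} (n : ℕ) (m₁ : Fin q₁ → ℕ) (m₂ : Fin q₂ → ℕ) (e₁ : Fin q₁ → ℕ)
    (e₂ : Fin q₂ → ℕ) : Prop :=
  (∀ i, 2 ≤ e₁ i) ∧ (∀ j, 2 ≤ e₂ j) ∧
  (∀ i (α : ℕ), 0 < α → n ∣ m₁ i * α → e₁ i ≤ α) ∧
  (∀ j (β : ℕ), 0 < β → n ∣ m₂ j * β → e₂ j ≤ β) ∧
  ∀ i j (α β : ℕ), 0 < α → 0 < β → n ∣ m₁ i * α + m₂ j * β → (1 : ℚ) ≤ α / e₁ i + β / e₂ j

open Pool.Agent.TH875.PQ in
/-- The two inequalities behind the theorem. -/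
theorem key {k : Type} [Field k] [IsAlgClosed k] [CharZero k] {q₁ q₂ : ℕ}
    {a : Fin q₁ → k} {b : Fin q₂ → k} (ha : Function.Injective a) (hb : Function.Injective b)
    {G : Finset (Fin q₁)} {k₀ : Subfield k} (ha0 : ∀ i, i ∉ G → a i ∈ k₀) (hb0 : ∀ j, b j ∈ k₀)
    (hab : AlgebraicIndependent k₀ (fun i : G => a i)) {n : ℕ}
    {m₁ : Fin q₁ → ℕ} {m₂ : Fin q₂ → ℕ} {e₁ : Fin q₁ → ℕ} {e₂ : Fin q₂ → ℕ}
    (h1 : n ∣ ∑ i, m₁ i) (h2 : n ∣ ∑ j, m₂ j) (hC : Canonical n m₁ m₂ e₁ e₂)
    (hell : ∑ j, (1 - 1 / e₂ j : ℚ) = 2) {μ : ℚ} (hμ0 : 0 ≤ μ)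
    (hμ : ∀ i ∈ G, (1 - 1 / e₁ i : ℚ) ≤ μ)
    {L : Type} [Field L] [Algebra k L] [IsFF k L] {t x z : L} (ht : Transcendental k t)
    (hz : z ≠ 0) (e : z ^ n = (∏ i, (t - algebraMap k L (a i)) ^ m₁ i) *
      ∏ j, (x - algebraMap k L (b j)) ^ m₂ j) :
    min (∑ i, (1 - 1 / e₁ i : ℚ) - 2 - 2 * μ) (max (∑ i ∈ G, (1 - 1 / e₁ i : ℚ) - 2)
      (2 * ∑ i ∈ G, (1 - 1 / e₁ i : ℚ) - ∑ i, (1 - 1 / e₁ i : ℚ))) * degree k t ≤
      canonicalDegree k L := by
  obtain ⟨c1, c2, c3, c4, c5⟩ := hC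
  have hcan : canonicalDegree k L = Pool.Agent.W603.LV.canDeg k L := by
    have h : ∃ D : Derivation k L L, D ≠ 0 := Pool.Agent.W603.LV.exists_der
    unfold canonicalDegree
    rw [dif_pos h, Pool.Agent.W603.LV.canDeg_eq h.choose_spec]
    rfl
  have hdeg : ∀ f : L, degree k f = Pool.Agent.W603.LV.hgt k f := fun f => rfl
  have ht0 : (0 : ℚ) ≤ degree k t := by
    rw [hdeg]; exact_mod_cast Pool.Agent.W603.LV.hgt_nonneg t
  have hle : ∀ m : ℕ, (1 - 1 / m : ℚ) ≤ 1 := by
    intro m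
    have : (0 : ℚ) ≤ 1 / m := by positivity
    linarith
  have hge : ∀ m : ℕ, 2 ≤ m → (1 / 2 : ℚ) ≤ 1 - 1 / m := by
    intro m hm
    have h2 : (2 : ℚ) ≤ m := by exact_mod_cast hm
    have h3 : (1 : ℚ) / m ≤ 1 / 2 := one_div_le_one_div_of_le (by norm_num) h2
    linarith
  have horb := orb_of_pow (S := (∅ : Finset (Place k L))) ha hb h1 h2 hz e (e₁ := e₁) (e₂ := e₂)
    (fun P _ i hi => absurd hi (by have := c1 i; omega))
    (fun P _ j hj => absurd hj (by have := c2 j; omega)) c3 c4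
    (fun i j α β hα hβ _ _ h => c5 i j α β hα hβ h)
  have hab' : AlgebraicIndependent k₀
      (Sum.elim (fun i : G => a i) (fun j : (∅ : Finset (Fin q₂)) => b j)) := by
    have h3 : Function.Injective (fun y : G ⊕ (∅ : Finset (Fin q₂)) =>
        Sum.elim (fun i : G => i) (fun j => absurd j.2 (Finset.notMem_empty _)) y) := by
      rintro (y | y) (y' | y') h
      · simpa using h
      · exact absurd y'.2 (Finset.notMem_empty _)
      · exact absurd y.2 (Finset.notMem_empty _)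
      · exact absurd y.2 (Finset.notMem_empty _)
    have h4 := hab.comp _ h3
    convert h4 using 1
    funext y
    rcases y with y | y
    · rfl
    · exact absurd y.2 (Finset.notMem_empty _)
  have h3 := main_tri k₀ ha hb (w := fun i => (1 - 1 / e₁ i : ℚ)) (w' := fun j => (1 - 1 / e₂ j : ℚ))
    (fun i => hge _ (c1 i)) (fun i => hle _) (fun j => hge _ (c2 j)) (fun j => hle _)
    G ∅ ha0 (fun j _ => hb0 j) hab' (Or.inl ht) ∅ horb hμ0 hμ (μ₂ := 0)
    (fun j hj => absurd hj (Finset.notMem_empty _))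
  rw [← hdeg, ← hdeg, ← hcan] at h3
  simp only [hell, Finset.sum_empty, Finset.card_empty, Nat.cast_zero, add_zero, sub_self, zero_mul,
    mul_zero] at h3
  rcases h3 with h3 | h3 | ⟨h3, -, h4, -⟩
  · exact (mul_le_mul_of_nonneg_right (min_le_left _ _) ht0).trans h3
  · refine (mul_le_mul_of_nonneg_right (min_le_left _ _) ht0).trans ?_
    have := mul_nonneg hμ0 ht0
    linarith
  · refine (mul_le_mul_of_nonneg_right (min_le_right _ _) ht0).trans ?_
    rcases le_total (∑ i ∈ G, (1 - 1 / e₁ i : ℚ) - 2)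
      (2 * ∑ i ∈ G, (1 - 1 / e₁ i : ℚ) - ∑ i, (1 - 1 / e₁ i : ℚ)) with h5 | h5
    · rw [max_eq_right h5]; exact h4
    · rw [max_eq_left h5]; exact h3

/-- Let `a i` (`i < q₁`) and `b j` (`j < q₂`) be two systems of distinct elements of the
algebraically closed field `k` of characteristic zero, such that the `a i` with `i ∈ G` are very
general with respect to the other ones: they are algebraically independent over a subfield `k₀`
that contains all `b j` and the `a i` with `i ∉ G`, which are arbitrary.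

(1) Let `z ^ n = ∏ (t - a i) ^ m₁ i * ∏ (x - b j) ^ m₂ j` be a surface `X` with canonical
singularities, where `n` divides `∑ m₁ i` and `∑ m₂ j`, with orders of ramification `e₁ i`, `e₂ j`,
such that the general fibres of `t` have genus `1`, that is, `∑ (1 - 1 / e₂ j) = 2`; then
`K = κ F`, where `F` is a fibre and `κ = ∑ (1 - 1 / e₁ i) - 2`. Let `μ` be an upper bound for the
numbers `1 - 1 / e₁ i` with `i ∈ G`, and let `W` be their sum. Every curve on `X` of genus `g`, not
contained in a fibre, in `z = 0` or in `x = ∞`, satisfies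
`min (κ - 2 μ, max (W - 2, 2 W - κ - 2)) (C . F) ≤ 2 g - 2`. In particular, if `κ ≥ 2 μ`, and
`W ≥ 2` or `2 W ≥ κ + 2`, then there is no such rational curve.

(2) In particular let `X` be the quadratic twist `z ^ 2 = ∏ (t - a i) * g(x)` of an arbitrary
elliptic curve `w ^ 2 = g(x) = (x - b 0) (x - b 1) (x - b 2) (x - b 3)` by a polynomial of even
degree `q₁ ≥ 6` (that is, `X` has Kodaira dimension `1`) such that at least four of its roots, or
at least half of them, are very general. Then there is no rational curve on `X` outside of the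
fibres of `t` and of `z = 0` (the four sections `x = b j`) and `x = ∞`: every such curve has genus
`g ≥ 1`, and it satisfies
`min (q₁ / 2 - 3, max (#G / 2 - 2, #G - q₁ / 2)) (C . F) ≤ 2 g - 2`. -/
theorem result (k : Type) [Field k] [IsAlgClosed k] [CharZero k] (q₁ : ℕ) (a : Fin q₁ → k)
    (ha : Function.Injective a) (G : Finset (Fin q₁)) (k₀ : Subfield k)
    (ha0 : ∀ i, i ∉ G → a i ∈ k₀) (hG : AlgebraicIndependent k₀ (fun i : G => a i)) :
    (∀ (q₂ n : ℕ) (b : Fin q₂ → k) (m₁ : Fin q₁ → ℕ) (m₂ : Fin q₂ → ℕ) (e₁ : Fin q₁ → ℕ)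
      (e₂ : Fin q₂ → ℕ), Function.Injective b → (∀ j, b j ∈ k₀) → n ∣ ∑ i, m₁ i → n ∣ ∑ j, m₂ j →
      Canonical n m₁ m₂ e₁ e₂ → ∑ j, (1 - 1 / e₂ j : ℚ) = 2 →
      ∀ μ : ℚ, 0 ≤ μ → (∀ i ∈ G, (1 - 1 / e₁ i : ℚ) ≤ μ) →
      ∀ (L : Type) [Field L] [Algebra k L] [IsFF k L] (t x z : L), Transcendental k t → z ≠ 0 →
      z ^ n = (∏ i, (t - algebraMap k L (a i)) ^ m₁ i) *
        ∏ j, (x - algebraMap k L (b j)) ^ m₂ j →
      0 < degree k t ∧
      min (∑ i, (1 - 1 / e₁ i : ℚ) - 2 - 2 * μ) (max (∑ i ∈ G, (1 - 1 / e₁ i : ℚ) - 2)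
        (2 * ∑ i ∈ G, (1 - 1 / e₁ i : ℚ) - ∑ i, (1 - 1 / e₁ i : ℚ))) * degree k t ≤
        canonicalDegree k L) ∧
    (∀ b : Fin 4 → k, Function.Injective b → (∀ j, b j ∈ k₀) → 2 ∣ q₁ → 6 ≤ q₁ →
      4 ≤ G.card ∨ q₁ ≤ 2 * G.card →
      ∀ (L : Type) [Field L] [Algebra k L] [IsFF k L] (t x z : L), Transcendental k t → z ≠ 0 →
      z ^ 2 = (∏ i, (t - algebraMap k L (a i))) * ∏ j, (x - algebraMap k L (b j)) →
      0 ≤ canonicalDegree k L ∧
      min ((q₁ : ℚ) / 2 - 3) (max ((G.card : ℚ) / 2 - 2) (G.card - (q₁ : ℚ) / 2)) * degree k t ≤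
        canonicalDegree k L) := by
  have hpos : ∀ (L : Type) [Field L] [Algebra k L] [IsFF k L] (f : L), Transcendental k f →
      0 < degree k f := by
    intro L _ _ _ f hf
    by_contra hcon
    push Not at hcon
    have hdeg : degree k f = Pool.Agent.W603.LV.hgt k f := rfl
    rw [hdeg] at hcon
    obtain ⟨c, hc⟩ := Pool.Agent.W603.LV.const_of_hgt hcon
    exact hf (by rw [hc]; exact isAlgebraic_algebraMap c)
  refine ⟨fun q₂ n b m₁ m₂ e₁ e₂ hb hb0 h1 h2 hC hell μ hμ0 hμ L _ _ _ t x z ht hz e =>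
    ⟨hpos L t ht, key ha hb ha0 hb0 hG h1 h2 hC hell hμ0 hμ ht hz e⟩,
    fun b hb hb0 h2 h6 hc L _ _ _ t x z ht hz e => ?_⟩
  have hC : Canonical 2 (fun _ : Fin q₁ => 1) (fun _ : Fin 4 => 1) (fun _ => 2) (fun _ => 2) := by
    refine ⟨fun _ => le_rfl, fun _ => le_rfl, fun i α h3 h4 => Nat.le_of_dvd h3 (by simpa using h4),
      fun j β h3 h4 => Nat.le_of_dvd h3 (by simpa using h4), fun i j α β h3 h4 h5 => ?_⟩
    have h6 : 2 ≤ α + β := by omega
    have h7 : (2 : ℚ) ≤ α + β := by exact_mod_cast h6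
    push_cast
    linarith
  have h3 := key ha hb ha0 hb0 hG (n := 2) (by simpa using h2) (by simp) hC
    (by norm_num) (μ := 1 / 2) (by norm_num) (fun i _ => by norm_num) ht hz (by simpa using e)
  simp only [Finset.sum_const, Finset.card_univ, Fintype.card_fin, nsmul_eq_mul, Nat.cast_ofNat]
    at h3
  have h4 : min ((q₁ : ℚ) / 2 - 3) (max ((G.card : ℚ) / 2 - 2) (G.card - (q₁ : ℚ) / 2)) *
      degree k t ≤ canonicalDegree k L := by
    refine le_trans (le_of_eq ?_) h3
    congr 1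
    congr 1
    · ring
    · congr 1 <;> ring
  refine ⟨?_, h4⟩
  have h5 : (0 : ℚ) ≤ min ((q₁ : ℚ) / 2 - 3) (max ((G.card : ℚ) / 2 - 2)
      (G.card - (q₁ : ℚ) / 2)) := by
    have h7 : (6 : ℚ) ≤ q₁ := by exact_mod_cast h6
    refine le_min (by linarith) ?_
    rcases hc with h8 | h8
    · have h9 : (4 : ℚ) ≤ G.card := by exact_mod_cast h8
      exact le_max_of_le_left (by linarith)
    · have h9 : (q₁ : ℚ) ≤ 2 * G.card := by exact_mod_cast h8
      exact le_max_of_le_right (by linarith)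
  have h8 : (0 : ℚ) < degree k t := by exact_mod_cast hpos L t ht
  have h9 : (0 : ℚ) ≤ canonicalDegree k L := (mul_nonneg h5 h8.le).trans h4
  exact_mod_cast h9

end Pool.Agent.Results.MP_4f5f6e_ag.IsotrivialSurfaces
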