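import Pool.Agent.TH875.PQ.F

set_option autoImplicit false

/-!
# Rational curves on very general quadratic twists of elliptic surfaces

`k` is an algebraically closed field of characteristic zero. Let `g (t, x)` be a monic polynomial of
degree `4` in `x` over `k[t]`, whose discriminant is not zero. The surface `w ^ 2 = g (t, x)` is an
elliptic surface over the projective line with coordinate `t`, and every elliptic surface with a
section is a quadratic twist of such a surface (substitute `x = 1 / x' + r`, with a constant `r`, in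
a Weierstrass equation). The quadratic twists are the surfaces `X : z ^ 2 = ∏ (t - a i) * g (t, x)`.
A curve on `X` with function field `L` whose image is not contained in the fibres `t = ∞`, `x = ∞`
is given by `t`, `x`, `z` in `L`.
-/

namespace Pool.Agent.Results.MP_4f5f6e_ag.VeryGeneralTwists

open FF MvPolynomial

section

variable (k : Type) {L : Type} [Field k] [Field L] [Algebra k L]

/-- The degree of the morphism to `ℙ¹` given by `f`: the number of the poles of `f`, counted with
multiplicities. For `f = t` and a curve `C` on `X` with function field `L` this is the intersection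
number of `C` with a fibre. -/
noncomputable def degree (f : L) : ℤ := ∑ᶠ P : Place k L, max (-P.ord f) 0

variable (L) in
open Classical in
/-- `2 g - 2`, where `g` is the genus of the curve with function field `L`: minus the degree of the
divisor of a nonzero rational vector field `D` (a derivation of `L` over `k`), whose order at the
place `P` is the order of `D s`, where `s` is an element of order `1` at `P`. It does not depend on
the choice of `D` and of the elements `s`. -/
noncomputable def canonicalDegree : ℤ :=
  if h : ∃ D : Derivation k L L, D ≠ 0 then - ∑ᶠ P : Place k L, P.ord (h.choose P.surj.choose)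
  else 0

end

/-- The polynomial `g (t, x)` is monic of degree `4` with respect to the second variable `x`, and
its discriminant with respect to `x` is not zero: some nonzero polynomial `Δ (t)` is a linear
combination of `g` and of its derivative with respect to `x`. -/
def MonicSeparableQuartic {k : Type} [Field k] (g : MvPolynomial (Fin 2) k) : Prop :=
  (∃ g₁ : MvPolynomial (Fin 2) k, g = X 1 ^ 4 + g₁ ∧ ∀ m ∈ g₁.support, m 1 < 4) ∧
    ∃ (A B : MvPolynomial (Fin 2) k) (Δ : MvPolynomial (Fin 1) k), Δ ≠ 0 ∧
      A * g + B * pderiv 1 g = rename (fun _ => 0) Δ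

/-- Let `g (t, x)` be a polynomial over `k`, monic of degree `4` in `x` with nonzero discriminant.
There is a number `c` with the following property. Let `f = ∏ (t - a i)` be a polynomial of any
degree `q` with distinct roots `a i`, such that the roots `a i` with `i ∈ G` are very general with
respect to `g` and to the other roots: they are algebraically independent over a subfield `k₀` that
contains the coefficients of `g` and the other roots (which are arbitrary). Let `C` be a curve of
genus `g(L)` on the elliptic surface `X : z ^ 2 = f (t) * g (t, x)` that is not contained in a fibre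
of `t`, in `z = 0` or in `x = ∞`.

(1) `min (q / 2 - c, #G / 2 - 2) (C . F) ≤ 2 g(L) - 2`, where `F` is a fibre and `C . F` is the
degree of `t` on `C`.

(2) If `q ≥ 2 c` and `#G ≥ 4`, then `C` is not rational. If `q > 2 c` and `#G ≥ 5`, then `C` is
neither rational nor elliptic. -/
theorem result (k : Type) [Field k] [IsAlgClosed k] [CharZero k]
    (g : MvPolynomial (Fin 2) k) (hg : MonicSeparableQuartic g) :
    ∃ c : ℕ, ∀ (q : ℕ) (a : Fin q → k), Function.Injective a →
      ∀ (G : Finset (Fin q)) (k₀ : Subfield k), (∀ i, i ∉ G → a i ∈ k₀) →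
      (∀ m, g.coeff m ∈ k₀) → AlgebraicIndependent k₀ (fun i : G => a i) →
      ∀ (L : Type) [Field L] [Algebra k L] [IsFF k L] (t x z : L), Transcendental k t → z ≠ 0 →
      z ^ 2 = (∏ i, (t - algebraMap k L (a i))) * aeval ![t, x] g →
      0 < degree k t ∧
      min ((q : ℚ) / 2 - c) ((G.card : ℚ) / 2 - 2) * degree k t ≤ canonicalDegree k L ∧
      (2 * c ≤ q → 4 ≤ G.card → 0 ≤ canonicalDegree k L) ∧
      (2 * c < q → 5 ≤ G.card → 0 < canonicalDegree k L) := by
  classical
  obtain ⟨⟨g₁, rfl, hg₁⟩, A, B, Δ, hΔ, hAB⟩ := hg
  obtain ⟨δ, hδ⟩ : ∃ δ, δ = g₁.totalDegree := ⟨_, rfl⟩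
  obtain ⟨N, hN⟩ : ∃ N, N = max A.totalDegree B.totalDegree := ⟨_, rfl⟩
  obtain ⟨C, hC⟩ : ∃ C, C = 5 + 2 * δ + N * (1 + δ) + 2 * δ := ⟨_, rfl⟩
  have h1 : ∀ m ∈ g₁.support, m 1 < 2 * 2 ∧ m 0 ≤ δ := by
    intro m hm
    refine ⟨hg₁ m hm, ?_⟩
    rw [hδ]
    refine le_trans ?_ (le_totalDegree hm)
    rw [Finsupp.sum_fintype _ _ (by simp)]
    exact Finset.single_le_sum (f := fun a => m a) (fun _ _ => Nat.zero_le _) (Finset.mem_univ 0)
  refine ⟨1 + C * (1 + Δ.totalDegree), fun q a ha G k₀ ha0 hg0 hab L _ _ _ t x z ht hz e => ?_⟩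
  have hcan : canonicalDegree k L = Pool.Agent.W603.LV.canDeg k L := by
    have h : ∃ D : Derivation k L L, D ≠ 0 := Pool.Agent.W603.LV.exists_der
    unfold canonicalDegree
    rw [dif_pos h, Pool.Agent.W603.LV.canDeg_eq h.choose_spec]
    rfl
  have hdeg : ∀ f : L, degree k f = Pool.Agent.W603.LV.hgt k f := fun f => rfl
  have hpos : 0 < degree k t := by
    by_contra hcon
    push Not at hcon
    rw [hdeg] at hcon
    obtain ⟨c, hc⟩ := Pool.Agent.W603.LV.const_of_hgt hcon
    exact ht (by rw [hc]; exact isAlgebraic_algebraMap c)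
  have hg0' : ∀ m, g₁.coeff m ∈ k₀ := by
    intro m
    have h2 := hg0 m
    rw [coeff_add, coeff_X_pow] at h2
    have h3 : g₁.coeff m = ((if Finsupp.single 1 4 = m then (1 : k) else 0) + g₁.coeff m) -
        (if Finsupp.single 1 4 = m then (1 : k) else 0) := by ring
    rw [h3]
    refine k₀.sub_mem h2 ?_
    split_ifs
    · exact k₀.one_mem
    · exact k₀.zero_mem
  have key := Pool.Agent.TH875.PQ.twist_main k₀ ha G ha0 hab (A := A) (B := B) (N := N) (l := 2)
    hg0' h1 hAB hΔ (by rw [hN]; exact le_max_left _ _) (by rw [hN]; exact le_max_right _ _) ht hz e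
    (C := C) (by rw [hC]; push_cast; rfl)
  rw [← hdeg, ← hdeg, ← hcan] at key
  have hd : (0 : ℚ) < degree k t := by exact_mod_cast hpos
  have key' : min ((q : ℚ) / 2 - (1 + C * (1 + Δ.totalDegree) : ℕ)) ((G.card : ℚ) / 2 - 2) *
      degree k t ≤ canonicalDegree k L := by
    rcases key with h2 | h2
    · have h3 : ((2 * ((2 : ℕ) - 2) * degree k x + (q - 2 - 2 * C * (1 + Δ.totalDegree)) *
        degree k t : ℤ) : ℚ) ≤ (2 * canonicalDegree k L : ℤ) := by exact_mod_cast h2
      refine (mul_le_mul_of_nonneg_right (min_le_left _ _) hd.le).trans ?_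
      push_cast at h3 ⊢
      linarith
    · have h3 : (((G.card - 4) * degree k t : ℤ) : ℚ) ≤ (2 * canonicalDegree k L : ℤ) := by
        exact_mod_cast h2
      refine (mul_le_mul_of_nonneg_right (min_le_right _ _) hd.le).trans ?_
      push_cast at h3 ⊢
      linarith
  refine ⟨hpos, key', fun hq hG => ?_, fun hq hG => ?_⟩
  · have h4 : (0 : ℚ) ≤ canonicalDegree k L := by
      have hq' : (2 : ℚ) * (1 + C * (1 + Δ.totalDegree) : ℕ) ≤ q := by exact_mod_cast hq
      have hG' : (4 : ℚ) ≤ G.card := by exact_mod_cast hG
      exact (mul_nonneg (le_min (by linarith) (by linarith)) hd.le).trans key'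
    exact_mod_cast h4
  · have h4 : (0 : ℚ) < canonicalDegree k L := by
      have hq' : (2 : ℚ) * (1 + C * (1 + Δ.totalDegree) : ℕ) < q := by exact_mod_cast hq
      have hG' : (5 : ℚ) ≤ G.card := by exact_mod_cast hG
      exact (mul_pos (lt_min (by linarith) (by linarith)) hd).trans_le key'
    exact_mod_cast h4

end Pool.Agent.Results.MP_4f5f6e_ag.VeryGeneralTwists
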